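import Mathlib

open MvPolynomial TensorProduct

universe u

namespace Pool.Agent.Results.MP_94ed3e_ag.FatPoint

/-- The `T`-module `M` is locally free of (constant, finite) rank `r`: it is finitely generated and
projective, and its localization at every prime has rank `r`. -/
def LocallyFreeOfRank (T : Type u) [CommRing T] (M : Type u) [AddCommGroup M] [Module T M]
    (r : ℕ) : Prop :=
  Module.Finite T M ∧ Module.Projective T M ∧ ∀ p : PrimeSpectrum T, Module.rankAtStalk M p = r

section LF

variable {T : Type u} [CommRing T] {M M' : Type u} [AddCommGroup M] [Module T M]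
  [AddCommGroup M'] [Module T M']

lemma LocallyFreeOfRank.congr {r : ℕ} (h : LocallyFreeOfRank T M r) (e : M ≃ₗ[T] M') :
    LocallyFreeOfRank T M' r := by
  obtain ⟨h1, h2, h3⟩ := h
  refine ⟨Module.Finite.equiv e, Module.Projective.of_equiv e, fun p => ?_⟩
  rw [← h3 p, Module.rankAtStalk_eq_of_equiv e]

lemma LocallyFreeOfRank.pi (r : ℕ) : LocallyFreeOfRank T (Fin r → T) r := by
  refine ⟨inferInstance, inferInstance, fun p => ?_⟩
  have : Nontrivial T := p.nontrivial
  rw [Module.rankAtStalk_eq_finrank_of_free]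
  simp

lemma LocallyFreeOfRank.subsingleton (h : LocallyFreeOfRank T M 0) : Subsingleton M := by
  obtain ⟨h1, h2, h3⟩ := h
  rw [← Module.rankAtStalk_eq_zero_iff_subsingleton (R := T)]
  funext p
  exact h3 p

lemma LocallyFreeOfRank.faithful {r : ℕ} (h : LocallyFreeOfRank T M (r + 1)) (c : T)
    (hc : ∀ m : M, c • m = 0) : c = 0 := by
  obtain ⟨h1, h2, h3⟩ := h
  apply eq_zero_of_localization
  intro J hJ
  have hr : Module.finrank (Localization.AtPrime J) (LocalizedModule J.primeCompl M) = r + 1 :=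
    h3 ⟨J, hJ.isPrime⟩
  have hfree : Module.Free (Localization.AtPrime J) (LocalizedModule J.primeCompl M) :=
    Module.free_of_flat_of_isLocalRing
  let b := Module.finBasis (Localization.AtPrime J) (LocalizedModule J.primeCompl M)
  have i0 : Fin (Module.finrank (Localization.AtPrime J) (LocalizedModule J.primeCompl M)) :=
    ⟨0, by omega⟩
  have hb : algebraMap T (Localization.AtPrime J) c • b i0 = 0 := by
    rw [algebraMap_smul]
    induction b i0 using LocalizedModule.induction_on with
    | h m s =>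
      rw [LocalizedModule.smul'_mk, hc, LocalizedModule.zero_mk]
  have h5 : b.repr (algebraMap T (Localization.AtPrime J) c • b i0) i0 = 0 := by rw [hb]; simp
  rw [map_smul, Finsupp.smul_apply, Module.Basis.repr_self, Finsupp.single_eq_same, smul_eq_mul,
    mul_one] at h5
  exact h5

lemma LocallyFreeOfRank.injective_of_surjective {r : ℕ} (h : LocallyFreeOfRank T M r)
    (h' : LocallyFreeOfRank T M' r) (f : M →ₗ[T] M') (hf : Function.Surjective f) :
    Function.Injective f := by
  obtain ⟨h1, h2, h3⟩ := h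
  obtain ⟨h1', h2', h3'⟩ := h'
  obtain ⟨g, hg⟩ := Module.projective_lifting_property f LinearMap.id hf
  have hg' : ∀ y, f (g y) = y := fun y => congrArg (fun q : M' →ₗ[T] M' => q y) hg
  let K := LinearMap.ker f
  let s : M →ₗ[T] K := LinearMap.codRestrict K (LinearMap.id - g ∘ₗ f) (by
    intro m
    simp [K, hg'])
  have hs : s ∘ₗ K.subtype = LinearMap.id := by
    ext x
    have hx : f (x : M) = 0 := x.2
    simp [s, hx]
  have hKfin : Module.Finite T K := Module.Finite.of_surjective s (by
    intro x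
    exact ⟨x, congrArg (fun q : K →ₗ[T] K => q x) hs⟩)
  have hKproj : Module.Projective T K := Module.Projective.of_split K.subtype s hs
  let e : (K × M') ≃ₗ[T] M := LinearEquiv.ofBijective (LinearMap.coprod K.subtype g) (by
    constructor
    · rw [← LinearMap.ker_eq_bot, LinearMap.ker_eq_bot']
      rintro ⟨x, y⟩ hxy
      simp only [LinearMap.coprod_apply, Submodule.subtype_apply] at hxy
      have hx : f (x : M) = 0 := x.2
      have hy : y = 0 := by
        have := congrArg f hxy
        rwa [map_add, hx, hg', zero_add, map_zero] at this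
      subst hy
      rw [map_zero, add_zero] at hxy
      exact Prod.ext (Subtype.ext hxy) rfl
    · intro m
      refine ⟨(s m, f m), ?_⟩
      simp [s])
  have hrank : ∀ p : PrimeSpectrum T, Module.rankAtStalk K p = 0 := by
    intro p
    have h4 := congrFun (Module.rankAtStalk_prod (R := T) K M') p
    rw [Module.rankAtStalk_eq_of_equiv e, h3 p, Pi.add_apply, h3' p] at h4
    omega
  have hsub : Subsingleton K :=
    LocallyFreeOfRank.subsingleton (T := T) ⟨hKfin, hKproj, hrank⟩
  rw [← LinearMap.ker_eq_bot]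
  exact (Submodule.subsingleton_iff_eq_bot).1 hsub

lemma LocallyFreeOfRank.finrank_baseChange {r : ℕ} (h : LocallyFreeOfRank T M r)
    (K : Type u) [Field K] [Algebra T K] : Module.finrank K (K ⊗[T] M) = r := by
  obtain ⟨h1, h2, h3⟩ := h
  have h4 := Module.rankAtStalk_baseChange (R := T) (M := M) (S := K) ⟨⊥, Ideal.isPrime_bot⟩
  rw [h3, Module.rankAtStalk_eq_finrank_of_free] at h4
  simpa using h4

/-- entries generate the unit ideal -/
lemma LocallyFreeOfRank.span_entries {r m : ℕ} (hrm : r < m) (N : Submodule T (Fin m → T))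
    (h : LocallyFreeOfRank T ((Fin m → T) ⧸ N) r) :
    Ideal.span {c : T | ∃ v ∈ N, ∃ i, v i = c} = ⊤ := by
  by_contra hne
  obtain ⟨J, hJ, hle⟩ := Ideal.exists_le_maximal _ hne
  let _ : Field (T ⧸ J) := Ideal.Quotient.field J
  have h1 := h.finrank_baseChange (T ⧸ J)
  let g0 : (Fin m → T) →ₗ[T] (Fin m → T ⧸ J) :=
    LinearMap.pi fun i => (Ideal.Quotient.mkₐ T J).toLinearMap ∘ₗ LinearMap.proj i
  let g : ((Fin m → T) ⧸ N) →ₗ[T] (Fin m → T ⧸ J) := N.liftQ g0 (by
    intro v hv
    rw [LinearMap.mem_ker]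
    funext i
    simp only [g0, LinearMap.pi_apply, LinearMap.comp_apply, LinearMap.proj_apply,
      AlgHom.toLinearMap_apply, Ideal.Quotient.mkₐ_eq_mk, Pi.zero_apply]
    rw [Ideal.Quotient.eq_zero_iff_mem]
    exact hle (Ideal.subset_span ⟨v, hv, i, rfl⟩))
  have hg : Function.Surjective g := by
    intro y
    choose x hx using fun i => Ideal.Quotient.mk_surjective (y i)
    refine ⟨N.mkQ x, ?_⟩
    funext i
    exact hx i
  have h2 : Function.Surjective (LinearMap.liftBaseChange (T ⧸ J) g) := by
    intro y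
    obtain ⟨x, rfl⟩ := hg y
    exact ⟨1 ⊗ₜ x, by simp⟩
  have h3 : Module.Finite T ((Fin m → T) ⧸ N) := h.1
  have h4 := LinearMap.finrank_le_finrank_of_surjective h2
  rw [h1, Module.finrank_fintype_fun_eq_card, Fintype.card_fin] at h4
  omega

lemma eq_of_le_of_rank {r m : ℕ} {N N' : Submodule T (Fin m → T)} (hle : N ≤ N')
    (h : LocallyFreeOfRank T ((Fin m → T) ⧸ N) r)
    (h' : LocallyFreeOfRank T ((Fin m → T) ⧸ N') r) : N = N' := by
  apply le_antisymm hle
  intro v hv
  have hinj := h.injective_of_surjective h' (Submodule.factor hle)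
    (Submodule.factor_surjective hle)
  rw [← Submodule.Quotient.mk_eq_zero]
  apply hinj
  rw [map_zero]
  exact (Submodule.Quotient.mk_eq_zero _).2 hv

lemma eq_bot_of_rank {m : ℕ} {N : Submodule T (Fin m → T)}
    (h : LocallyFreeOfRank T ((Fin m → T) ⧸ N) m) : N = ⊥ := by
  symm
  apply eq_of_le_of_rank bot_le _ h
  exact (LocallyFreeOfRank.pi m).congr (Submodule.quotEquivOfEqBot ⊥ rfl).symm

end LF


section Hilb

variable {A : Type} [AddCommGroup A] {n : ℕ}

/-- The degree `a` part of `T[x_1, ..., x_n] / I`, where `x_i` has degree `w i`: the quotient of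
the `T`-module of homogeneous polynomials of degree `a` by those lying in `I`. -/
abbrev GradedPiece (w : Fin n → A) {T : Type u} [CommRing T]
    (I : Ideal (MvPolynomial (Fin n) T)) (a : A) : Type u :=
  weightedHomogeneousSubmodule T w a ⧸
    (I.restrictScalars T).comap (weightedHomogeneousSubmodule T w a).subtype

/-- The multigraded Hilbert functor (Haiman and Sturmfels) of the polynomial ring in `n` variables
with `deg x_i = w i` in the abelian group `A`: its value at `T` is the set of homogeneous ideals `I`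
of `T[x_1, ..., x_n]` such that the degree `a` part of `T[x_1, ..., x_n] / I` is locally free of
rank `h a` for every `a`. -/
def hilb (w : Fin n → A) (h : A → ℕ) (T : Type u) [CommRing T] :
    Set (Ideal (MvPolynomial (Fin n) T)) :=
  {I | (∀ F ∈ I, ∀ a, weightedHomogeneousComponent w a F ∈ I) ∧
    ∀ a, LocallyFreeOfRank T (GradedPiece w I a) (h a)}

variable {w : Fin n → A} {h : A → ℕ} {T : Type u} [CommRing T]

/-- linear relations modulo `I` among the monomials `x ^ m i` -/
noncomputable def rel (I : Ideal (MvPolynomial (Fin n) T)) {r : ℕ} (m : Fin r → (Fin n →₀ ℕ)) :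
    Submodule T (Fin r → T) :=
  (I.restrictScalars T).comap (Fintype.linearCombination T (fun i => monomial (m i) (1 : T)))

lemma mem_rel (I : Ideal (MvPolynomial (Fin n) T)) {r : ℕ} (m : Fin r → (Fin n →₀ ℕ))
    (t : Fin r → T) : t ∈ rel I m ↔ ∑ i, monomial (m i) (t i) ∈ I := by
  rw [rel, Submodule.mem_comap, Submodule.restrictScalars_mem, Fintype.linearCombination_apply]
  simp only [smul_monomial, smul_eq_mul, mul_one]

lemma mem_of_degree_zero {I : Ideal (MvPolynomial (Fin n) T)} (hI : I ∈ hilb w h T) {a : A}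
    (ha : h a = 0) {F : MvPolynomial (Fin n) T} (hF : F ∈ weightedHomogeneousSubmodule T w a) :
    F ∈ I := by
  have h1 := hI.2 a
  rw [ha] at h1
  have h2 := h1.subsingleton
  have h3 : (Submodule.Quotient.mk (⟨F, hF⟩ : weightedHomogeneousSubmodule T w a) :
      GradedPiece w I a) = 0 := Subsingleton.elim _ _
  rw [Submodule.Quotient.mk_eq_zero] at h3
  exact h3

lemma monomial_mem_of_degree_zero {I : Ideal (MvPolynomial (Fin n) T)} (hI : I ∈ hilb w h T)
    (u : Fin n →₀ ℕ) (hu : h (Finsupp.weight w u) = 0) (t : T) : monomial u t ∈ I :=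
  mem_of_degree_zero hI hu (isWeightedHomogeneous_monomial _ _ _ rfl)

lemma rel_rank {I : Ideal (MvPolynomial (Fin n) T)} (hI : I ∈ hilb w h T) (a : A) {r : ℕ}
    (m : Fin r → (Fin n →₀ ℕ)) (hm : ∀ i, Finsupp.weight w (m i) = a)
    (hcov : ∀ u, Finsupp.weight w u = a → (∃ i, m i = u) ∨ monomial u (1 : T) ∈ I) :
    LocallyFreeOfRank T ((Fin r → T) ⧸ rel I m) (h a) := by
  classical
  let f0 : (Fin r → T) →ₗ[T] weightedHomogeneousSubmodule T w a :=
    LinearMap.codRestrict _ (Fintype.linearCombination T (fun i => monomial (m i) (1 : T))) (by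
      intro t
      rw [Fintype.linearCombination_apply]
      apply Submodule.sum_mem
      intro i _
      apply Submodule.smul_mem
      exact isWeightedHomogeneous_monomial _ _ _ (hm i))
  let f : (Fin r → T) →ₗ[T] GradedPiece w I a := (Submodule.mkQ _) ∘ₗ f0
  have hker : LinearMap.ker f = rel I m := by
    ext t
    rw [LinearMap.mem_ker]
    change (Submodule.Quotient.mk (f0 t) : GradedPiece w I a) = 0 ↔ _
    rw [Submodule.Quotient.mk_eq_zero]
    rfl
  have hsurj : Function.Surjective f := by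
    have key : ∀ F : MvPolynomial (Fin n) T, F ∈ weightedHomogeneousSubmodule T w a →
        ∃ t : Fin r → T, F - Fintype.linearCombination T (fun i => monomial (m i) (1 : T)) t ∈ I := by
      intro F hF
      have hsub : ∀ u ∈ F.support, ∃ t : Fin r → T, monomial u (coeff u F) -
          Fintype.linearCombination T (fun i => monomial (m i) (1 : T)) t ∈ I := by
        intro u hu
        rcases hcov u (hF (mem_support_iff.1 hu)) with ⟨i, hi⟩ | hmem
        · refine ⟨Pi.single i (coeff u F), ?_⟩
          rw [Fintype.linearCombination_apply_single, hi, smul_monomial, smul_eq_mul, mul_one,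
            sub_self]
          exact I.zero_mem
        · refine ⟨0, ?_⟩
          rw [map_zero, sub_zero]
          have : monomial u (coeff u F) = C (coeff u F) * monomial u (1 : T) := by
            rw [C_mul_monomial, mul_one]
          rw [this]
          exact I.mul_mem_left _ hmem
      choose! t ht using hsub
      refine ⟨∑ u ∈ F.support, t u, ?_⟩
      have h5 : F - Fintype.linearCombination T (fun i => monomial (m i) (1 : T))
          (∑ u ∈ F.support, t u) = ∑ u ∈ F.support, (monomial u (coeff u F) -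
          Fintype.linearCombination T (fun i => monomial (m i) (1 : T)) (t u)) := by
        rw [Finset.sum_sub_distrib, ← F.as_sum, map_sum]
      rw [h5]
      exact I.sum_mem fun u hu => ht u hu
    intro q
    obtain ⟨⟨F, hF⟩, rfl⟩ := Submodule.mkQ_surjective _ q
    obtain ⟨t, ht⟩ := key F hF
    refine ⟨t, ?_⟩
    symm
    change (Submodule.Quotient.mk _ : GradedPiece w I a) = Submodule.Quotient.mk _
    rw [Submodule.Quotient.eq]
    exact ht
  have e := f.quotKerEquivOfSurjective hsurj
  rw [hker] at e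
  exact (hI.2 a).congr e.symm

/-- An ideal cut out by homogeneous linear functionals is a point of the Hilbert functor. -/
lemma mem_hilb_of_functionals {ι : Type} [Fintype ι] [DecidableEq ι] [DecidableEq A]
    (I : Ideal (MvPolynomial (Fin n) T)) (l : ι → MvPolynomial (Fin n) T →ₗ[T] T) (δ : ι → A)
    (hI : ∀ F, F ∈ I ↔ ∀ i, l i F = 0)
    (hcomp : ∀ F a i, l i (weightedHomogeneousComponent w a F) = if δ i = a then l i F else 0)
    (g : ι → MvPolynomial (Fin n) T)
    (hg : ∀ i, g i ∈ weightedHomogeneousSubmodule T w (δ i))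
    (hlg : ∀ i j, l i (g j) = if i = j then 1 else 0)
    (hh : ∀ a, h a = (Finset.univ.filter fun i => δ i = a).card) :
    I ∈ hilb w h T := by
  refine ⟨?_, ?_⟩
  · intro F hF a
    rw [hI] at hF ⊢
    intro i
    rw [hcomp, hF i, ite_self]
  · intro a
    let f0 : weightedHomogeneousSubmodule T w a →ₗ[T] ({i : ι // δ i = a} → T) :=
      LinearMap.pi fun i => l i.1 ∘ₗ (weightedHomogeneousSubmodule T w a).subtype
    have hker : LinearMap.ker f0 =
        (I.restrictScalars T).comap (weightedHomogeneousSubmodule T w a).subtype := by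
      ext ⟨F, hF⟩
      rw [LinearMap.mem_ker, Submodule.mem_comap, Submodule.restrictScalars_mem,
        Submodule.subtype_apply, hI]
      constructor
      · intro h1 i
        by_cases hi : δ i = a
        · exact congrFun h1 ⟨i, hi⟩
        · have h2 := hcomp F a i
          rw [if_neg hi, weightedHomogeneousComponent_of_mem hF, if_pos rfl] at h2
          exact h2
      · intro h1
        funext i
        exact h1 i.1
    have hsurj : Function.Surjective f0 := by
      intro t
      have hg' : ∀ i : {i : ι // δ i = a}, g i.1 ∈ weightedHomogeneousSubmodule T w a := by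
        intro i
        have h6 := hg i.1
        rw [i.2] at h6
        exact h6
      refine ⟨∑ i, t i • ⟨g i.1, hg' i⟩, ?_⟩
      rw [map_sum]
      funext j
      rw [Finset.sum_apply, Finset.sum_eq_single j]
      · rw [map_smul, Pi.smul_apply]
        change t j • l j.1 (g j.1) = t j
        rw [hlg, if_pos rfl, smul_eq_mul, mul_one]
      · intro i _ hij
        rw [map_smul, Pi.smul_apply]
        change t i • l j.1 (g i.1) = 0
        rw [hlg, if_neg (fun hh => hij (Subtype.ext hh.symm)), smul_zero]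
      · intro hj
        exact absurd (Finset.mem_univ j) hj
    have e := f0.quotKerEquivOfSurjective hsurj
    rw [hker] at e
    rw [hh a]
    refine LocallyFreeOfRank.congr ?_ e.symm
    refine ⟨inferInstance, inferInstance, fun p => ?_⟩
    have : Nontrivial T := p.nontrivial
    rw [Module.rankAtStalk_eq_finrank_of_free, Pi.natCast_apply,
      Module.finrank_fintype_fun_eq_card, Fintype.card_subtype]
    simp

end Hilb

section Exponents

/-- the exponent vector `(a, b, c)` -/
noncomputable def E (t : ℕ × ℕ × ℕ) : Fin 3 →₀ ℕ :=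
  Finsupp.equivFunOnFinite.symm ![t.1, t.2.1, t.2.2]

lemma E_zero (t : ℕ × ℕ × ℕ) : E t 0 = t.1 := rfl
lemma E_one (t : ℕ × ℕ × ℕ) : E t 1 = t.2.1 := rfl
lemma E_two (t : ℕ × ℕ × ℕ) : E t 2 = t.2.2 := rfl

lemma eq_E (u : Fin 3 →₀ ℕ) : u = E (u 0, u 1, u 2) := by
  ext i
  fin_cases i <;> rfl

lemma E_inj {s t : ℕ × ℕ × ℕ} : E s = E t ↔ s = t := by
  constructor
  · intro h
    have h0 := congrArg (fun f : Fin 3 →₀ ℕ => f 0) h
    have h1 := congrArg (fun f : Fin 3 →₀ ℕ => f 1) h
    have h2 := congrArg (fun f : Fin 3 →₀ ℕ => f 2) h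
    simp only [E_zero, E_one, E_two] at h0 h1 h2
    exact Prod.ext h0 (Prod.ext h1 h2)
  · rintro rfl
    rfl

lemma weight_E {A : Type} [AddCommGroup A] (w : Fin 3 → A) (t : ℕ × ℕ × ℕ) :
    Finsupp.weight w (E t) = t.1 • w 0 + t.2.1 • w 1 + t.2.2 • w 2 := by
  rw [Finsupp.weight_eq_sum, Fin.sum_univ_three]
  rfl

variable {T : Type u} [CommRing T]

lemma coeff_X0_mul (t : ℕ × ℕ × ℕ) (F : MvPolynomial (Fin 3) T) :
    coeff (E t) (X 0 * F) = if t.1 = 0 then 0 else coeff (E (t.1 - 1, t.2.1, t.2.2)) F := by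
  rw [coeff_X_mul']
  by_cases h : t.1 = 0
  · rw [if_neg, if_pos h]
    simp [E_zero, h]
  · rw [if_pos, if_neg h]
    · congr 1
      rw [eq_E (E t - Finsupp.single 0 1)]
      simp [E_zero, E_one, E_two]
    · simp [E_zero, h]

lemma coeff_X1_mul (t : ℕ × ℕ × ℕ) (F : MvPolynomial (Fin 3) T) :
    coeff (E t) (X 1 * F) = if t.2.1 = 0 then 0 else coeff (E (t.1, t.2.1 - 1, t.2.2)) F := by
  rw [coeff_X_mul']
  by_cases h : t.2.1 = 0
  · rw [if_neg, if_pos h]
    simp [E_one, h]
  · rw [if_pos, if_neg h]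
    · congr 1
      rw [eq_E (E t - Finsupp.single 1 1)]
      simp [E_zero, E_one, E_two]
    · simp [E_one, h]

lemma coeff_X2_mul (t : ℕ × ℕ × ℕ) (F : MvPolynomial (Fin 3) T) :
    coeff (E t) (X 2 * F) = if t.2.2 = 0 then 0 else coeff (E (t.1, t.2.1, t.2.2 - 1)) F := by
  rw [coeff_X_mul']
  by_cases h : t.2.2 = 0
  · rw [if_neg, if_pos h]
    simp [E_two, h]
  · rw [if_pos, if_neg h]
    · congr 1
      rw [eq_E (E t - Finsupp.single 2 1)]
      simp [E_zero, E_one, E_two]
    · simp [E_two, h]

lemma monomial_mul_E (s t : ℕ × ℕ × ℕ) (a b : T) :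
    monomial (E s) a * monomial (E t) b = monomial (E (s + t)) (a * b) := by
  rw [monomial_mul]
  congr 1
  rw [eq_E (E s + E t)]
  rfl

/-- the functional `F ↦ p * coeff v F + q * coeff v' F` -/
noncomputable def pairFunctional (v v' : ℕ × ℕ × ℕ) (p q : T) : MvPolynomial (Fin 3) T →ₗ[T] T :=
  p • lcoeff T (E v) + q • lcoeff T (E v')

lemma pairFunctional_apply (v v' : ℕ × ℕ × ℕ) (p q : T) (F : MvPolynomial (Fin 3) T) :
    pairFunctional v v' p q F = p * coeff (E v) F + q * coeff (E v') F := rfl

/-- the ideal cut out by functionals -/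
def idealOf {ι : Type} (l : ι → MvPolynomial (Fin 3) T →ₗ[T] T)
    (hl : ∀ F, (∀ i, l i F = 0) → ∀ j i, l i (X j * F) = 0) : Ideal (MvPolynomial (Fin 3) T) where
  carrier := {F | ∀ i, l i F = 0}
  add_mem' := by
    intro F G hF hG i
    rw [map_add, hF i, hG i, add_zero]
  zero_mem' := fun i => map_zero _
  smul_mem' := by
    intro G F hF
    rw [smul_eq_mul]
    induction G using MvPolynomial.induction_on with
    | C r =>
      intro i
      rw [← smul_eq_C_mul, map_smul, hF i, smul_zero]
    | add p q hp hq =>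
      intro i
      rw [add_mul, map_add, hp i, hq i, add_zero]
    | mul_X p j hp =>
      rw [mul_comm p, mul_assoc]
      exact hl _ hp j

lemma mem_idealOf {ι : Type} (l : ι → MvPolynomial (Fin 3) T →ₗ[T] T)
    (hl : ∀ F, (∀ i, l i F = 0) → ∀ j i, l i (X j * F) = 0) (F : MvPolynomial (Fin 3) T) :
    F ∈ idealOf l hl ↔ ∀ i, l i F = 0 := Iff.rfl

lemma idealOf_mem_hilb {A : Type} [AddCommGroup A] [DecidableEq A] {w : Fin 3 → A} {h : A → ℕ}
    {ι : Type} [Fintype ι] [DecidableEq ι] (v v' : ι → ℕ × ℕ × ℕ) (p q a c : ι → T) (δ : ι → A)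
    (hl : ∀ F, (∀ i, pairFunctional (v i) (v' i) (p i) (q i) F = 0) →
      ∀ j i, pairFunctional (v i) (v' i) (p i) (q i) (X j * F) = 0)
    (hv : ∀ i, Finsupp.weight w (E (v i)) = δ i) (hv' : ∀ i, Finsupp.weight w (E (v' i)) = δ i)
    (hdis : ∀ i j, i ≠ j → v i ≠ v j ∧ v i ≠ v' j ∧ v' i ≠ v' j)
    (hone : ∀ i, if v i = v' i then (p i + q i) * (a i + c i) = 1 else p i * a i + q i * c i = 1)
    (hh : ∀ a, h a = (Finset.univ.filter fun i => δ i = a).card) :
    idealOf (fun i => pairFunctional (v i) (v' i) (p i) (q i)) hl ∈ hilb w h T := by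
  classical
  refine mem_hilb_of_functionals _ (fun i => pairFunctional (v i) (v' i) (p i) (q i)) δ
    (fun F => Iff.rfl) ?_ (fun i => monomial (E (v i)) (a i) + monomial (E (v' i)) (c i)) ?_ ?_ hh
  · intro F b i
    rw [pairFunctional_apply, coeff_weightedHomogeneousComponent,
      coeff_weightedHomogeneousComponent, hv, hv', pairFunctional_apply]
    split_ifs <;> ring
  · intro i
    exact Submodule.add_mem _ (isWeightedHomogeneous_monomial _ _ _ (hv i))
      (isWeightedHomogeneous_monomial _ _ _ (hv' i))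
  · intro i j
    simp only [pairFunctional_apply, coeff_add, coeff_monomial, E_inj]
    by_cases hij : i = j
    · subst hij
      have h1 := hone i
      rw [if_pos rfl, if_pos rfl, if_pos rfl]
      by_cases h2 : v i = v' i
      · rw [if_pos h2] at h1
        rw [if_pos h2, if_pos h2.symm, ← h1]
        ring
      · rw [if_neg h2] at h1
        rw [if_neg h2, if_neg (fun h3 => h2 h3.symm), ← h1]
        ring
    · obtain ⟨h1, h2, h3⟩ := hdis i j hij
      obtain ⟨h1', h2', h3'⟩ := hdis j i (fun hh => hij hh.symm)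
      rw [if_neg h1', if_neg hij, if_neg (fun hh => h2 hh.symm), if_neg h2', if_neg h3']
      ring

end Exponents

section General

variable {A : Type} [AddCommGroup A] {n : ℕ} {w : Fin n → A} {h : A → ℕ} {T : Type u} [CommRing T]

lemma eq_of_le_of_mem_hilb {I I' : Ideal (MvPolynomial (Fin n) T)} (hI : I ∈ hilb w h T)
    (hI' : I' ∈ hilb w h T) (hle : I ≤ I') : I = I' := by
  apply le_antisymm hle
  intro F hF
  rw [← sum_weightedHomogeneousComponent w F]
  refine finsum_induction (p := fun G => G ∈ I) I.zero_mem (fun x y hx hy => I.add_mem hx hy) ?_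
  intro a
  have hmem : weightedHomogeneousComponent w a F ∈ weightedHomogeneousSubmodule T w a :=
    weightedHomogeneousComponent_isWeightedHomogeneous a F
  have hle' : (I.restrictScalars T).comap (weightedHomogeneousSubmodule T w a).subtype ≤
      (I'.restrictScalars T).comap (weightedHomogeneousSubmodule T w a).subtype :=
    Submodule.comap_mono hle
  have hinj := (hI.2 a).injective_of_surjective (hI'.2 a) (Submodule.factor hle')
    (Submodule.factor_surjective hle')
  have h1 : (Submodule.Quotient.mk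
      (⟨weightedHomogeneousComponent w a F, hmem⟩ : weightedHomogeneousSubmodule T w a) :
      GradedPiece w I a) = 0 := by
    apply hinj
    rw [map_zero]
    exact (Submodule.Quotient.mk_eq_zero _).2 (hI'.1 F hF a)
  have h2 := (Submodule.Quotient.mk_eq_zero
    ((I.restrictScalars T).comap (weightedHomogeneousSubmodule T w a).subtype)).1 h1
  exact h2

lemma coeff_mem_rel {I : Ideal (MvPolynomial (Fin n) T)} (hI : I ∈ hilb w h T)
    {F : MvPolynomial (Fin n) T} (hF : F ∈ I) (a : A) {r : ℕ} (m : Fin r → (Fin n →₀ ℕ))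
    (hm : ∀ i, Finsupp.weight w (m i) = a) (hinj : Function.Injective m)
    (hcov : ∀ u, Finsupp.weight w u = a → (∃ i, m i = u) ∨ monomial u (1 : T) ∈ I) :
    (fun i => coeff (m i) F) ∈ rel I m := by
  classical
  rw [mem_rel]
  have hG := hI.1 F hF a
  set G := weightedHomogeneousComponent w a F with hGdef
  have hc : ∀ i, coeff (m i) F = coeff (m i) G := by
    intro i
    rw [hGdef, coeff_weightedHomogeneousComponent, if_pos (hm i)]
  have h2 : G - ∑ i, monomial (m i) (coeff (m i) F) ∈ I := by
    set G' := G - ∑ i, monomial (m i) (coeff (m i) F) with hG'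
    have hco : ∀ j, coeff (m j) G' = 0 := by
      intro j
      rw [hG', coeff_sub, coeff_sum, Finset.sum_eq_single j, coeff_monomial, if_pos rfl, hc,
        sub_self]
      · intro i _ hij
        rw [coeff_monomial, if_neg (fun hh => hij (hinj hh))]
      · intro hj
        exact absurd (Finset.mem_univ j) hj
    rw [G'.as_sum]
    apply I.sum_mem
    intro u hu
    have hne : coeff u G' ≠ 0 := mem_support_iff.1 hu
    have hw : Finsupp.weight w u = a := by
      by_contra hw
      apply hne
      rw [hG', coeff_sub, hGdef, coeff_weightedHomogeneousComponent, if_neg hw, coeff_sum,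
        Finset.sum_eq_zero, sub_zero]
      intro i _
      rw [coeff_monomial, if_neg]
      rintro rfl
      exact hw (hm i)
    rcases hcov u hw with ⟨i, rfl⟩ | hmem
    · exact absurd (hco i) hne
    · have : monomial u (coeff u G') = C (coeff u G') * monomial u (1 : T) := by
        rw [C_mul_monomial, mul_one]
      rw [this]
      exact I.mul_mem_left _ hmem
  have h3 := I.sub_mem hG h2
  rwa [sub_sub_cancel] at h3

lemma map_idealOf {T' : Type u} [CommRing T'] (φ : T →+* T') {ι : Type} [Fintype ι]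
    [DecidableEq ι] (v v' : ι → ℕ × ℕ × ℕ) (p q a c : ι → T)
    (hl : ∀ F, (∀ i, pairFunctional (v i) (v' i) (p i) (q i) F = 0) →
      ∀ j i, pairFunctional (v i) (v' i) (p i) (q i) (X j * F) = 0)
    (hl' : ∀ F, (∀ i, pairFunctional (v i) (v' i) (φ (p i)) (φ (q i)) F = 0) →
      ∀ j i, pairFunctional (v i) (v' i) (φ (p i)) (φ (q i)) (X j * F) = 0)
    (hdis : ∀ i j, i ≠ j → v i ≠ v j ∧ v i ≠ v' j ∧ v' i ≠ v' j)
    (hone : ∀ i, if v i = v' i then (p i + q i) * (a i + c i) = 1 else p i * a i + q i * c i = 1) :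
    Ideal.map (MvPolynomial.map φ) (idealOf (fun i => pairFunctional (v i) (v' i) (p i) (q i)) hl) =
      idealOf (fun i => pairFunctional (v i) (v' i) (φ (p i)) (φ (q i))) hl' := by
  classical
  set I := idealOf (fun i => pairFunctional (v i) (v' i) (p i) (q i)) hl with hI
  apply le_antisymm
  · rw [Ideal.map_le_iff_le_comap]
    intro F hF i
    have h1 := congrArg φ (hF i)
    simp only [pairFunctional_apply, map_add, map_mul, map_zero] at h1 ⊢
    rw [coeff_map, coeff_map]
    exact h1
  · intro G hG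
    have hmon : ∀ u, (∀ i, u ≠ E (v i) ∧ u ≠ E (v' i)) → ∀ t : T',
        monomial u t ∈ Ideal.map (MvPolynomial.map φ) I := by
      intro u hu t
      have h1 : (monomial u (1 : T)) ∈ I := by
        intro i
        simp only [pairFunctional_apply, coeff_monomial]
        rw [if_neg (hu i).1, if_neg (hu i).2]
        ring
      have h2 := Ideal.mem_map_of_mem (MvPolynomial.map φ) h1
      rw [map_monomial, map_one] at h2
      have : monomial u t = C t * monomial u (1 : T') := by
        rw [C_mul_monomial, mul_one]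
      rw [this]
      exact Ideal.mul_mem_left _ _ h2
    let κ : ι → MvPolynomial (Fin 3) T := fun i =>
      if v i = v' i then 0 else monomial (E (v i)) (-q i) + monomial (E (v' i)) (p i)
    have hκ : ∀ i, κ i ∈ I := by
      intro i j
      by_cases hi : v i = v' i
      · simp only [κ, if_pos hi, map_zero]
      · simp only [κ, if_neg hi, pairFunctional_apply, coeff_add, coeff_monomial, E_inj]
        by_cases hij : i = j
        · subst hij
          rw [if_pos rfl, if_pos rfl, if_neg hi, if_neg (fun h3 => hi h3.symm)]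
          ring
        · obtain ⟨h1, h2, h3⟩ := hdis i j hij
          obtain ⟨h1', h2', h3'⟩ := hdis j i (fun hh => hij hh.symm)
          rw [if_neg h1, if_neg (fun hh => h2' hh.symm), if_neg h2, if_neg h3]
          ring
    let s : ι → T' := fun i => φ (a i) * coeff (E (v' i)) G - φ (c i) * coeff (E (v i)) G
    set G' := G - ∑ i, C (s i) * MvPolynomial.map φ (κ i) with hG'
    have hsum : ∑ i, C (s i) * MvPolynomial.map φ (κ i) ∈ Ideal.map (MvPolynomial.map φ) I := by
      apply Ideal.sum_mem
      intro i _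
      exact Ideal.mul_mem_left _ _ (Ideal.mem_map_of_mem _ (hκ i))
    have hcoκ : ∀ i j, i ≠ j → coeff (E (v j)) (MvPolynomial.map φ (κ i)) = 0 ∧
        coeff (E (v' j)) (MvPolynomial.map φ (κ i)) = 0 := by
      intro i j hij
      obtain ⟨h1, h2, h3⟩ := hdis i j hij
      obtain ⟨h1', h2', h3'⟩ := hdis j i (fun hh => hij hh.symm)
      by_cases hi : v i = v' i
      · simp only [κ, if_pos hi, map_zero, coeff_zero, and_self]
      · simp only [κ, if_neg hi, map_add, map_monomial, coeff_add, coeff_monomial, E_inj]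
        rw [if_neg h1, if_neg (fun hh => h2' hh.symm), if_neg h2, if_neg h3]
        simp
    have hco : ∀ j, coeff (E (v j)) G' = 0 ∧ coeff (E (v' j)) G' = 0 := by
      intro j
      have hGj := hG j
      simp only [pairFunctional_apply] at hGj
      have hj := congrArg φ (show (if v j = v' j then (p j + q j) * (a j + c j)
        else p j * a j + q j * c j) = 1 by
          have := hone j
          split_ifs at this ⊢ <;> exact this)
      have e1 : coeff (E (v j)) G' = coeff (E (v j)) G -
          s j * coeff (E (v j)) (MvPolynomial.map φ (κ j)) := by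
        rw [hG', coeff_sub, coeff_sum, Finset.sum_eq_single j, coeff_C_mul]
        · intro i _ hij
          rw [coeff_C_mul, (hcoκ i j hij).1, mul_zero]
        · intro hj'
          exact absurd (Finset.mem_univ j) hj'
      have e2 : coeff (E (v' j)) G' = coeff (E (v' j)) G -
          s j * coeff (E (v' j)) (MvPolynomial.map φ (κ j)) := by
        rw [hG', coeff_sub, coeff_sum, Finset.sum_eq_single j, coeff_C_mul]
        · intro i _ hij
          rw [coeff_C_mul, (hcoκ i j hij).2, mul_zero]
        · intro hj'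
          exact absurd (Finset.mem_univ j) hj'
      rw [e1, e2]
      by_cases hvj : v j = v' j
      · rw [if_pos hvj] at hj
        simp only [κ, if_pos hvj, map_zero, coeff_zero, mul_zero, sub_zero]
        rw [map_mul, map_add, map_add, map_one] at hj
        have h5 : coeff (E (v' j)) G = 0 := by
          rw [hvj] at hGj
          linear_combination (φ (a j) + φ (c j)) * hGj - coeff (E (v' j)) G * hj
        rw [hvj]
        exact ⟨h5, h5⟩
      · rw [if_neg hvj] at hj
        have hvj' : ¬ v' j = v j := fun hh => hvj hh.symm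
        simp only [κ, if_neg hvj, map_add, map_monomial, coeff_add, coeff_monomial, E_inj,
          hvj, hvj', if_true, if_false, map_neg, coeff_neg, neg_zero, add_zero, zero_add]
        rw [map_add, map_mul, map_mul, map_one] at hj
        constructor
        · simp only [s]
          linear_combination φ (a j) * hGj - coeff (E (v j)) G * hj
        · simp only [s]
          linear_combination φ (c j) * hGj - coeff (E (v' j)) G * hj
    have hG'mem : G' ∈ Ideal.map (MvPolynomial.map φ) I := by
      rw [G'.as_sum]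
      apply Ideal.sum_mem
      intro u hu
      apply hmon
      intro i
      rw [mem_support_iff] at hu
      constructor
      · rintro rfl
        exact hu (hco i).1
      · rintro rfl
        exact hu (hco i).2
    have h6 := Ideal.add_mem _ hG'mem hsum
    rwa [hG', sub_add_cancel] at h6

end General

section RankOne

variable {T : Type u} [CommRing T]

/-- two relations of a rank one quotient of `T ^ 2` have vanishing minor -/
lemma minor_eq_zero {N : Submodule T (Fin 2 → T)} (h : LocallyFreeOfRank T ((Fin 2 → T) ⧸ N) 1)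
    {v v' : Fin 2 → T} (hv : v ∈ N) (hv' : v' ∈ N) : v 0 * v' 1 - v 1 * v' 0 = 0 := by
  apply h.faithful
  intro q
  obtain ⟨x, rfl⟩ := Submodule.mkQ_surjective _ q
  rw [← map_smul]
  rw [Submodule.mkQ_apply, Submodule.Quotient.mk_eq_zero]
  have : (v 0 * v' 1 - v 1 * v' 0) • x =
      (x 0 * v' 1 - x 1 * v' 0) • v + (v 0 * x 1 - v 1 * x 0) • v' := by
    funext i
    fin_cases i
    · simp; ring
    · simp; ring
  rw [this]
  exact N.add_mem (N.smul_mem _ hv) (N.smul_mem _ hv')

lemma exists_entries {N : Submodule T (Fin 2 → T)} (h : LocallyFreeOfRank T ((Fin 2 → T) ⧸ N) 1) :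
    ∃ v ∈ N, ∃ v' ∈ N, v 0 + v' 1 = 1 := by
  have h1 := h.span_entries (by norm_num)
  have hle : Ideal.span {c : T | ∃ v ∈ N, ∃ i, v i = c} ≤
      (N.map (LinearMap.proj 0)) ⊔ (N.map (LinearMap.proj 1)) := by
    rw [Ideal.span_le]
    rintro c ⟨v, hv, i, rfl⟩
    fin_cases i
    · exact Submodule.mem_sup_left ⟨v, hv, rfl⟩
    · exact Submodule.mem_sup_right ⟨v, hv, rfl⟩
  rw [h1] at hle
  have h2 : (1 : T) ∈ (N.map (LinearMap.proj 0)) ⊔ (N.map (LinearMap.proj 1)) := hle trivial
  obtain ⟨a, ⟨v, hv, rfl⟩, b, ⟨v', hv', rfl⟩, hab⟩ := Submodule.mem_sup.1 h2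
  exact ⟨v, hv, v', hv', hab⟩

lemma rel_shift {I : Ideal (MvPolynomial (Fin 3) T)} (a b s : ℕ × ℕ × ℕ) {v : Fin 2 → T}
    (hv : v ∈ rel I ![E a, E b]) : v ∈ rel I ![E (a + s), E (b + s)] := by
  rw [mem_rel, Fin.sum_univ_two] at hv ⊢
  simp only [Matrix.cons_val_zero, Matrix.cons_val_one] at hv ⊢
  have h1 := I.mul_mem_right (monomial (E s) (1 : T)) hv
  rwa [add_mul, monomial_mul_E, monomial_mul_E, mul_one, mul_one] at h1

lemma monomial_coeff_mem {I : Ideal (MvPolynomial (Fin 3) T)} {u : Fin 3 →₀ ℕ}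
    (h : monomial u (1 : T) ∈ I) (t : T) : monomial u t ∈ I := by
  have : monomial u t = C t * monomial u (1 : T) := by
    rw [C_mul_monomial, mul_one]
  rw [this]
  exact I.mul_mem_left _ h

lemma monomial_shift_mem {I : Ideal (MvPolynomial (Fin 3) T)} (a s : ℕ × ℕ × ℕ)
    (h : monomial (E a) (1 : T) ∈ I) : monomial (E (a + s)) (1 : T) ∈ I := by
  have h1 := I.mul_mem_right (monomial (E s) (1 : T)) h
  rwa [monomial_mul_E, mul_one] at h1

lemma vec2_injective {a b : ℕ × ℕ × ℕ} (hab : a ≠ b) : Function.Injective ![E a, E b] := by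
  intro i j hij
  fin_cases i <;> fin_cases j <;> simp [E_inj, hab, hab.symm] at hij ⊢

lemma vec1_injective {a : ℕ × ℕ × ℕ} : Function.Injective ![E a] := by
  intro i j _
  exact Subsingleton.elim _ _

end RankOne

section Fat

/-- the grading: `deg x = (1,0)`, `deg y = (0,1)`, `deg z = (1,1)` -/
def wt : Fin 3 → ℤ × ℤ := ![(1, 0), (0, 1), (1, 1)]

/-- the Hilbert function -/
def hfun (a : ℤ × ℤ) : ℕ :=
  List.count a [(0, 0), (0, 1), (1, 0), (2, 0), (3, 0), (1, 1), (1, 1), (1, 2), (2, 1), (3, 1),
    (2, 2), (3, 2)]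

def V : Fin 12 → ℕ × ℕ × ℕ := ![(0, 0, 0), (0, 1, 0), (1, 0, 0), (2, 0, 0), (3, 0, 0), (1, 1, 0),
  (0, 0, 1), (0, 1, 1), (1, 0, 1), (2, 0, 1), (0, 0, 2), (1, 0, 2)]

def V' : Fin 12 → ℕ × ℕ × ℕ := ![(0, 0, 0), (0, 1, 0), (1, 0, 0), (2, 0, 0), (3, 0, 0), (1, 1, 0),
  (0, 0, 1), (0, 1, 1), (2, 1, 0), (3, 1, 0), (1, 1, 1), (2, 1, 1)]

def Dg : Fin 12 → ℤ × ℤ := ![(0, 0), (0, 1), (1, 0), (2, 0), (3, 0), (1, 1), (1, 1), (1, 2),
  (2, 1), (3, 1), (2, 2), (3, 2)]

lemma weight_wt (t : ℕ × ℕ × ℕ) :
    Finsupp.weight wt (E t) = ((t.1 : ℤ) + t.2.2, (t.2.1 : ℤ) + t.2.2) := by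
  rw [weight_E]
  simp [wt]

lemma weight_V (i : Fin 12) : Finsupp.weight wt (E (V i)) = Dg i := by
  rw [weight_wt]
  fin_cases i <;> rfl

lemma weight_V' (i : Fin 12) : Finsupp.weight wt (E (V' i)) = Dg i := by
  rw [weight_wt]
  fin_cases i <;> rfl

lemma hfun_eq (a : ℤ × ℤ) : hfun a = (Finset.univ.filter fun i => Dg i = a).card := by
  have h1 : hfun a = List.count a (List.ofFn Dg) := rfl
  have h2 : ∀ m : ℕ, ∀ D : Fin m → ℤ × ℤ, List.count a (List.ofFn D) =
      (Finset.univ.filter fun i => D i = a).card := by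
    intro m
    induction m with
    | zero => intro D; simp
    | succ m ih =>
      intro D
      rw [List.ofFn_succ, List.count_cons, ih, Finset.card_filter, Finset.card_filter,
        Fin.sum_univ_succ, add_comm]
      simp
  rw [h1, h2]

variable {T : Type u} [CommRing T]

def Q (b : T) : Fin 12 → T := ![0, 0, 0, 0, 0, 0, 0, 0, -b, -b, -b, -b]

lemma fat_stable (b : T) (hb : b * b = 0) (F : MvPolynomial (Fin 3) T)
    (hF : ∀ i, pairFunctional (V i) (V' i) 1 (Q b i) F = 0) :
    ∀ j i, pairFunctional (V i) (V' i) 1 (Q b i) (X j * F) = 0 := by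
  simp only [pairFunctional_apply] at hF ⊢
  have h0 := hF 0
  have h1 := hF 1
  have h2 := hF 2
  have h3 := hF 3
  have h4 := hF 4
  have h5 := hF 5
  have h6 := hF 6
  have h7 := hF 7
  have h8 := hF 8
  have h9 := hF 9
  have h10 := hF 10
  have h11 := hF 11
  simp [V, V', Q] at h0 h1 h2 h3 h4 h5 h6 h7 h8 h9 h10 h11
  intro j i
  fin_cases j
  · fin_cases i <;> simp [V, V', Q, coeff_X0_mul, *]
  · fin_cases i <;> simp [V, V', Q, coeff_X1_mul, *]
    · linear_combination b * h8 + coeff (E (2, 1, 0)) F * hb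
    · linear_combination b * h9 + coeff (E (3, 1, 0)) F * hb
  · fin_cases i <;> simp [V, V', Q, coeff_X2_mul, *]

/-- the ideal with parameter `b` -/
noncomputable def fatIdeal (b : T) (hb : b * b = 0) : Ideal (MvPolynomial (Fin 3) T) :=
  idealOf (fun i => pairFunctional (V i) (V' i) 1 (Q b i)) (fat_stable b hb)

lemma V_disjoint : ∀ i j, i ≠ j → V i ≠ V j ∧ V i ≠ V' j ∧ V' i ≠ V' j := by decide

lemma fat_hone (b : T) : ∀ i, if V i = V' i then ((1 : T) + Q b i) * (1 + 0) = 1
    else 1 * 1 + Q b i * 0 = 1 := by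
  intro i
  fin_cases i <;> simp [V, V', Q]

lemma fatIdeal_mem_hilb (b : T) (hb : b * b = 0) : fatIdeal b hb ∈ hilb wt hfun T :=
  idealOf_mem_hilb V V' (fun _ => 1) (Q b) (fun _ => 1) (fun _ => 0) Dg (fat_stable b hb)
    weight_V weight_V' V_disjoint (fat_hone b) hfun_eq

lemma fat_mem_iff (b : T) (hb : b * b = 0) (F : MvPolynomial (Fin 3) T) :
    F ∈ fatIdeal b hb ↔ ∀ i, coeff (E (V i)) F + Q b i * coeff (E (V' i)) F = 0 := by
  rw [fatIdeal, mem_idealOf]
  simp only [pairFunctional_apply, one_mul]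

lemma fatIdeal_injective {b b' : T} (hb : b * b = 0) (hb' : b' * b' = 0)
    (h : fatIdeal b hb = fatIdeal b' hb') : b = b' := by
  classical
  have h1 : (monomial (E (2, 1, 0)) (1 : T) + monomial (E (1, 0, 1)) b) ∈ fatIdeal b hb := by
    rw [fat_mem_iff]
    intro i
    fin_cases i <;> simp [V, V', Q, coeff_monomial, E_inj]
  rw [h, fat_mem_iff] at h1
  have h2 := h1 8
  simp [V, V', Q, coeff_monomial, E_inj] at h2
  linear_combination h2

lemma fat_zero {I : Ideal (MvPolynomial (Fin 3) T)} (hI : I ∈ hilb wt hfun T) (t : ℕ × ℕ × ℕ)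
    (ht : hfun ((t.1 : ℤ) + t.2.2, (t.2.1 : ℤ) + t.2.2) = 0) : monomial (E t) (1 : T) ∈ I := by
  apply monomial_mem_of_degree_zero hI
  rw [weight_wt]
  exact ht

lemma weight_cases {u : Fin 3 →₀ ℕ} {a b : ℤ} (h : Finsupp.weight wt u = (a, b)) :
    (u 0 : ℤ) + u 2 = a ∧ (u 1 : ℤ) + u 2 = b := by
  rw [eq_E u, weight_wt] at h
  exact ⟨congrArg Prod.fst h, congrArg Prod.snd h⟩

lemma fat_complete {I : Ideal (MvPolynomial (Fin 3) T)} (hI : I ∈ hilb wt hfun T) :
    ∃ (b : T) (hb : b * b = 0), fatIdeal b hb = I := by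
  -- monomials in `I`
  have hy2 : monomial (E (0, 2, 0)) (1 : T) ∈ I := fat_zero hI _ (by decide)
  have hxy2 : monomial (E (1, 2, 0)) (1 : T) ∈ I := monomial_shift_mem (0, 2, 0) (1, 0, 0) hy2
  have hx2y2 : monomial (E (2, 2, 0)) (1 : T) ∈ I := monomial_shift_mem (0, 2, 0) (2, 0, 0) hy2
  have hx3y2 : monomial (E (3, 2, 0)) (1 : T) ∈ I := monomial_shift_mem (0, 2, 0) (3, 0, 0) hy2
  have cover : ∀ (a b : ℤ) (s t : ℕ × ℕ × ℕ), (∀ u0 u1 u2 : ℕ, (u0 : ℤ) + u2 = a →
      (u1 : ℤ) + u2 = b → (s = (u0, u1, u2) ∨ t = (u0, u1, u2)) ∨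
        monomial (E (u0, u1, u2)) (1 : T) ∈ I) →
      ∀ u, Finsupp.weight wt u = (a, b) → (∃ i, ![E s, E t] i = u) ∨ monomial u (1 : T) ∈ I := by
    intro a b s t hcov u hu
    obtain ⟨h1, h2⟩ := weight_cases hu
    rcases hcov _ _ _ h1 h2 with (h3 | h3) | h3
    · left; exact ⟨0, by rw [eq_E u, ← h3]; rfl⟩
    · left; exact ⟨1, by rw [eq_E u, ← h3]; rfl⟩
    · right; rw [eq_E u]; exact h3
  -- the four degrees with a parameter
  have cov21 := cover 2 1 (2, 1, 0) (1, 0, 1) (by
    intro u0 u1 u2 h1 h2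
    left
    simp only [Prod.mk.injEq]
    omega)
  have cov31 := cover 3 1 (3, 1, 0) (2, 0, 1) (by
    intro u0 u1 u2 h1 h2
    left
    simp only [Prod.mk.injEq]
    omega)
  have cov22 := cover 2 2 (1, 1, 1) (0, 0, 2) (by
    intro u0 u1 u2 h1 h2
    by_cases h3 : u2 = 0
    · right
      have e0 : u0 = 2 := by omega
      have e1 : u1 = 2 := by omega
      subst h3 e0 e1
      exact hx2y2
    · left
      simp only [Prod.mk.injEq]
      omega)
  have cov32 := cover 3 2 (2, 1, 1) (1, 0, 2) (by
    intro u0 u1 u2 h1 h2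
    by_cases h3 : u2 = 0
    · right
      have e0 : u0 = 3 := by omega
      have e1 : u1 = 2 := by omega
      subst h3 e0 e1
      exact hx3y2
    · left
      simp only [Prod.mk.injEq]
      omega)
  have wt2 : ∀ (s t : ℕ × ℕ × ℕ) (a b : ℤ), Finsupp.weight wt (E s) = (a, b) →
      Finsupp.weight wt (E t) = (a, b) → ∀ i, Finsupp.weight wt (![E s, E t] i) = (a, b) := by
    intro s t a b h1 h2 i
    fin_cases i
    · exact h1
    · exact h2
  have w21 := wt2 (2, 1, 0) (1, 0, 1) 2 1 (by rw [weight_wt]; rfl) (by rw [weight_wt]; rfl)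
  have w31 := wt2 (3, 1, 0) (2, 0, 1) 3 1 (by rw [weight_wt]; rfl) (by rw [weight_wt]; rfl)
  have w22 := wt2 (1, 1, 1) (0, 0, 2) 2 2 (by rw [weight_wt]; rfl) (by rw [weight_wt]; rfl)
  have w32 := wt2 (2, 1, 1) (1, 0, 2) 3 2 (by rw [weight_wt]; rfl) (by rw [weight_wt]; rfl)
  have r21 : LocallyFreeOfRank T _ 1 := rel_rank hI (2, 1) _ w21 cov21
  have r31 : LocallyFreeOfRank T _ 1 := rel_rank hI (3, 1) _ w31 cov31
  have r22 : LocallyFreeOfRank T _ 1 := rel_rank hI (2, 2) _ w22 cov22
  have r32 : LocallyFreeOfRank T _ 1 := rel_rank hI (3, 2) _ w32 cov32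
  set N := rel I ![E (2, 1, 0), E (1, 0, 1)] with hN
  have e31 : N = rel I ![E (3, 1, 0), E (2, 0, 1)] :=
    eq_of_le_of_rank (fun v hv => rel_shift (2, 1, 0) (1, 0, 1) (1, 0, 0) hv) r21 r31
  have e32 : N = rel I ![E (2, 1, 1), E (1, 0, 2)] :=
    eq_of_le_of_rank (fun v hv => rel_shift (2, 1, 0) (1, 0, 1) (0, 0, 1) hv) r21 r32
  have e22 : rel I ![E (1, 1, 1), E (0, 0, 2)] = rel I ![E (2, 1, 1), E (1, 0, 2)] :=
    eq_of_le_of_rank (fun v hv => rel_shift (1, 1, 1) (0, 0, 2) (1, 0, 0) hv) r22 r32
  -- the key relation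
  have key : ∀ v ∈ N, ![v 1, 0] ∈ N := by
    intro v hv
    have h1 : v ∈ rel I ![E (3, 1, 0), E (2, 0, 1)] := by rw [← e31]; exact hv
    have h2 := rel_shift (3, 1, 0) (2, 0, 1) (0, 1, 0) h1
    rw [mem_rel, Fin.sum_univ_two] at h2
    simp only [Matrix.cons_val_zero, Matrix.cons_val_one] at h2
    have h3 : monomial (E ((3, 1, 0) + (0, 1, 0))) (v 0) ∈ I := monomial_coeff_mem hx3y2 _
    have h4 := I.sub_mem h2 h3
    rw [add_sub_cancel_left] at h4
    rw [e32, mem_rel, Fin.sum_univ_two]
    simp only [Matrix.cons_val_zero, Matrix.cons_val_one, map_zero, add_zero]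
    exact h4
  have hprod : ∀ v ∈ N, ∀ v' ∈ N, v 1 * v' 1 = 0 := by
    intro v hv v' hv'
    have h1 := minor_eq_zero r21 hv (key v' hv')
    simp only [Matrix.cons_val_zero, Matrix.cons_val_one, mul_zero, zero_sub, neg_eq_zero] at h1
    exact h1
  obtain ⟨v, hv, v', hv', hone⟩ := exists_entries r21
  have hsq : v' 1 * v' 1 = 0 := hprod v' hv' v' hv'
  have hvv' : v' 1 * v 1 = 0 := hprod v' hv' v hv
  -- normalised relation
  have hb : v 1 * v 1 = 0 := hprod v hv v hv
  have hbN : ![1, v 1] ∈ N := by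
    have h1 := N.smul_mem (1 + v' 1) hv
    have h2 : (1 + v' 1) • v = ![1, v 1] := by
      funext i
      fin_cases i
      · simp only [Fin.zero_eta, Pi.smul_apply, smul_eq_mul, Matrix.cons_val_zero]
        linear_combination (1 + v' 1) * hone - hsq
      · change (1 + v' 1) * v 1 = v 1
        linear_combination hvv'
    rwa [h2] at h1
  refine ⟨v 1, hb, ?_⟩
  symm
  refine eq_of_le_of_mem_hilb hI (fatIdeal_mem_hilb _ _) ?_
  intro F hF
  have hrel : ∀ u ∈ N, u 1 + -(v 1) * u 0 = 0 := by
    intro u hu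
    have h1 := minor_eq_zero r21 hbN hu
    simp only [Matrix.cons_val_zero, Matrix.cons_val_one] at h1
    linear_combination h1
  have inj2 : ∀ s t : ℕ × ℕ × ℕ, s ≠ t → Function.Injective ![E s, E t] :=
    fun s t hst => vec2_injective hst
  have c21 : (fun i => coeff (![E (2, 1, 0), E (1, 0, 1)] i) F) ∈ N :=
    coeff_mem_rel hI hF (2, 1) _ w21 (inj2 _ _ (by decide)) cov21
  have c31 : (fun i => coeff (![E (3, 1, 0), E (2, 0, 1)] i) F) ∈ N := by
    rw [e31]
    exact coeff_mem_rel hI hF (3, 1) _ w31 (inj2 _ _ (by decide)) cov31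
  have c22 : (fun i => coeff (![E (1, 1, 1), E (0, 0, 2)] i) F) ∈ N := by
    rw [e32, ← e22]
    exact coeff_mem_rel hI hF (2, 2) _ w22 (inj2 _ _ (by decide)) cov22
  have c32 : (fun i => coeff (![E (2, 1, 1), E (1, 0, 2)] i) F) ∈ N := by
    rw [e32]
    exact coeff_mem_rel hI hF (3, 2) _ w32 (inj2 _ _ (by decide)) cov32
  -- degrees where everything vanishes
  have full1 : ∀ (a b : ℤ) (s : ℕ × ℕ × ℕ), hfun (a, b) = 1 →
      Finsupp.weight wt (E s) = (a, b) → (∀ u0 u1 u2 : ℕ, (u0 : ℤ) + u2 = a →
      (u1 : ℤ) + u2 = b → s = (u0, u1, u2) ∨ monomial (E (u0, u1, u2)) (1 : T) ∈ I) →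
      coeff (E s) F = 0 := by
    intro a b s hab hs hcov
    have hcov' : ∀ u, Finsupp.weight wt u = (a, b) →
        (∃ i, ![E s] i = u) ∨ monomial u (1 : T) ∈ I := by
      intro u hu
      obtain ⟨h1, h2⟩ := weight_cases hu
      rcases hcov _ _ _ h1 h2 with h3 | h3
      · left; exact ⟨0, by rw [eq_E u, ← h3]; rfl⟩
      · right; rw [eq_E u]; exact h3
    have hws : ∀ i, Finsupp.weight wt (![E s] i) = (a, b) := by
      intro i
      fin_cases i
      exact hs
    have h1 := rel_rank hI (a, b) ![E s] hws hcov'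
    rw [hab] at h1
    have h2 := coeff_mem_rel hI hF (a, b) ![E s] hws vec1_injective hcov'
    rw [eq_bot_of_rank h1, Submodule.mem_bot] at h2
    exact congrFun h2 0
  have full2 : coeff (E (1, 1, 0)) F = 0 ∧ coeff (E (0, 0, 1)) F = 0 := by
    have hcov' := cover 1 1 (1, 1, 0) (0, 0, 1) (by
      intro u0 u1 u2 h1 h2
      left
      simp only [Prod.mk.injEq]
      omega)
    have hws := wt2 (1, 1, 0) (0, 0, 1) 1 1 (by rw [weight_wt]; rfl) (by rw [weight_wt]; rfl)
    have h1 : LocallyFreeOfRank T _ 2 := rel_rank hI (1, 1) _ hws hcov'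
    have h2 := coeff_mem_rel hI hF (1, 1) _ hws (inj2 _ _ (by decide)) hcov'
    rw [eq_bot_of_rank h1, Submodule.mem_bot] at h2
    exact ⟨congrFun h2 0, congrFun h2 1⟩
  rw [fat_mem_iff]
  have z0 : coeff (E (0, 0, 0)) F = 0 := full1 0 0 (0, 0, 0) (by decide) (by rw [weight_wt]; rfl)
    (by intro u0 u1 u2 h1 h2; left; simp only [Prod.mk.injEq]; omega)
  have z1 : coeff (E (0, 1, 0)) F = 0 := full1 0 1 (0, 1, 0) (by decide) (by rw [weight_wt]; rfl)
    (by intro u0 u1 u2 h1 h2; left; simp only [Prod.mk.injEq]; omega)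
  have z2 : coeff (E (1, 0, 0)) F = 0 := full1 1 0 (1, 0, 0) (by decide) (by rw [weight_wt]; rfl)
    (by intro u0 u1 u2 h1 h2; left; simp only [Prod.mk.injEq]; omega)
  have z3 : coeff (E (2, 0, 0)) F = 0 := full1 2 0 (2, 0, 0) (by decide) (by rw [weight_wt]; rfl)
    (by intro u0 u1 u2 h1 h2; left; simp only [Prod.mk.injEq]; omega)
  have z4 : coeff (E (3, 0, 0)) F = 0 := full1 3 0 (3, 0, 0) (by decide) (by rw [weight_wt]; rfl)
    (by intro u0 u1 u2 h1 h2; left; simp only [Prod.mk.injEq]; omega)
  have z7 : coeff (E (0, 1, 1)) F = 0 := full1 1 2 (0, 1, 1) (by decide) (by rw [weight_wt]; rfl)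
    (by
      intro u0 u1 u2 h1 h2
      by_cases h3 : u2 = 0
      · right
        have e0 : u0 = 1 := by omega
        have e1 : u1 = 2 := by omega
        subst h3 e0 e1
        exact hxy2
      · left
        simp only [Prod.mk.injEq]
        omega)
  have z8 := hrel _ c21
  have z9 := hrel _ c31
  have z10 := hrel _ c22
  have z11 := hrel _ c32
  simp only [Matrix.cons_val_zero, Matrix.cons_val_one] at z8 z9 z10 z11
  intro i
  fin_cases i
  · simpa [V, V', Q] using z0
  · simpa [V, V', Q] using z1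
  · simpa [V, V', Q] using z2
  · simpa [V, V', Q] using z3
  · simpa [V, V', Q] using z4
  · simpa [V, V', Q] using full2.1
  · simpa [V, V', Q] using full2.2
  · simpa [V, V', Q] using z7
  · simpa [V, V', Q] using z8
  · simpa [V, V', Q] using z9
  · simpa [V, V', Q] using z10
  · simpa [V, V', Q] using z11

lemma map_fatIdeal {T' : Type u} [CommRing T'] (φ : T →+* T') (b : T) (hb : b * b = 0)
    (hb' : φ b * φ b = 0) :
    Ideal.map (MvPolynomial.map φ) (fatIdeal b hb) = fatIdeal (φ b) hb' := by
  have hQ : ∀ i, φ (Q b i) = Q (φ b) i := by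
    intro i
    fin_cases i <;> simp [Q]
  have h1 := map_idealOf φ V V' (fun _ => (1 : T)) (Q b) (fun _ => 1) (fun _ => 0)
    (fat_stable b hb) (by
      intro F hF
      simp only [hQ, map_one] at hF ⊢
      exact fat_stable (φ b) hb' F hF) V_disjoint (fat_hone b)
  rw [fatIdeal, h1]
  ext F
  rw [mem_idealOf, fatIdeal, mem_idealOf]
  simp only [hQ, map_one]

end Fat

section Schemes

open CategoryTheory AlgebraicGeometry

/-- The `T`-points over `k` of a `k`-scheme `X`. -/
def Points (k : Type u) [Field k] (X : Scheme.{u}) (s : X ⟶ Spec (CommRingCat.of k)) (T : Type u)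
    [CommRing T] [Algebra k T] : Type u :=
  {g : Spec (CommRingCat.of T) ⟶ X // g ≫ s = Spec.map (CommRingCat.ofHom (algebraMap k T))}

/-- The `k`-scheme `X` (with structure morphism `s`) represents the multigraded Hilbert functor,
that is, `X` is the multigraded Hilbert scheme: there are bijections, natural in the `k`-algebra
`T`, between the `T`-points of `X` and the ideals in `hilb w h T`. -/
def RepresentsHilb (k : Type u) [Field k] {A : Type} [AddCommGroup A] {n : ℕ} (w : Fin n → A)
    (h : A → ℕ) (X : Scheme.{u}) (s : X ⟶ Spec (CommRingCat.of k)) : Prop :=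
  ∃ Φ : ∀ (T : Type u) [CommRing T] [Algebra k T], Points k X s T ≃ hilb w h T,
    ∀ (T T' : Type u) [CommRing T] [Algebra k T] [CommRing T'] [Algebra k T'] (φ : T →ₐ[k] T')
      (g : Points k X s T) (g' : Points k X s T'),
      g'.1 = Spec.map (CommRingCat.ofHom (φ : T →+* T')) ≫ g.1 →
      (Φ T' g').1 = Ideal.map (MvPolynomial.map (φ : T →+* T')) (Φ T g).1

variable {k : Type u} [Field k] {B : Type u} [CommRing B] [Algebra k B]

/-- points of an affine scheme -/
noncomputable def pointsEquiv (T : Type u) [CommRing T] [Algebra k T] :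
    Points k (Spec (CommRingCat.of B)) (Spec.map (CommRingCat.ofHom (algebraMap k B))) T ≃
      (B →ₐ[k] T) where
  toFun g :=
    { (Spec.preimage g.1).hom with
      commutes' := by
        intro c
        have h1 := g.2
        rw [← Spec.map_preimage g.1, ← Spec.map_comp] at h1
        have h2 := Spec.map_injective h1
        exact congrArg (fun f : CommRingCat.of k ⟶ CommRingCat.of T => f.hom c) h2 }
  invFun f := ⟨Spec.map (CommRingCat.ofHom (f : B →+* T)), by
    rw [← Spec.map_comp, ← CommRingCat.ofHom_comp]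
    congr 2
    ext c
    exact f.commutes c⟩
  left_inv g := by
    apply Subtype.ext
    change Spec.map (Spec.preimage g.1) = g.1
    exact Spec.map_preimage g.1
  right_inv f := by
    apply AlgHom.ext
    intro x
    change (Spec.preimage (Spec.map (CommRingCat.ofHom (f : B →+* T)))).hom x = f x
    rw [Spec.preimage_map]
    rfl

lemma representsHilb_Spec {A : Type} [AddCommGroup A] {n : ℕ} {w : Fin n → A} {h : A → ℕ}
    (Ψ : ∀ (T : Type u) [CommRing T] [Algebra k T], (B →ₐ[k] T) ≃ hilb w h T)
    (hnat : ∀ (T T' : Type u) [CommRing T] [Algebra k T] [CommRing T'] [Algebra k T']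
      (φ : T →ₐ[k] T') (f : B →ₐ[k] T),
      (Ψ T' (φ.comp f)).1 = Ideal.map (MvPolynomial.map (φ : T →+* T')) (Ψ T f).1) :
    RepresentsHilb k w h (Spec (CommRingCat.of B))
      (Spec.map (CommRingCat.ofHom (algebraMap k B))) := by
  refine ⟨fun T _ _ => (pointsEquiv T).trans (Ψ T), ?_⟩
  intro T T' _ _ _ _ φ g g' hg
  have h1 : pointsEquiv T' g' = φ.comp (pointsEquiv T g) := by
    apply AlgHom.ext
    intro x
    change (Spec.preimage g'.1).hom x = φ ((Spec.preimage g.1).hom x)
    have h2 : Spec.preimage g'.1 = Spec.preimage g.1 ≫ CommRingCat.ofHom (φ : T →+* T') := by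
      apply Spec.map_injective
      rw [Spec.map_preimage, Spec.map_comp, Spec.map_preimage, hg]
    rw [h2]
    rfl
  change (Ψ T' (pointsEquiv T' g')).1 = _
  rw [h1, hnat]
  rfl

end Schemes

section Main

open CategoryTheory AlgebraicGeometry

/-- The `k`-scheme `Y` is a fat point: `Y = Spec B` over `k` with `B` a local Artinian `k`-algebra
that is not a field. -/
def IsFatPoint (k : Type u) [Field k] (Y : Scheme.{u}) (t : Y ⟶ Spec (CommRingCat.of k)) : Prop :=
  ∃ (B : Type u) (_ : CommRing B) (_ : Algebra k B) (e : Y ≅ Spec (CommRingCat.of B)),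
    IsLocalRing B ∧ IsArtinianRing B ∧ ¬ IsField B ∧
    e.hom ≫ Spec.map (CommRingCat.ofHom (algebraMap k B)) = t

/-- The `k`-scheme `X` has a connected component that is isomorphic to a fat point. -/
def HasFatPointComponent (k : Type u) [Field k] (X : Scheme.{u})
    (s : X ⟶ Spec (CommRingCat.of k)) : Prop :=
  ∃ U : X.Opens, IsClosed (U : Set X) ∧ _root_.IsConnected (U : Set X) ∧ IsFatPoint k U (U.ι ≫ s)

/-- maps out of the dual numbers -/
noncomputable def dualEquiv (k : Type u) [Field k] (T : Type u) [CommRing T] [Algebra k T] :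
    (DualNumber k →ₐ[k] T) ≃ {b : T // b * b = 0} where
  toFun f := ⟨f DualNumber.eps, by rw [← map_mul, DualNumber.eps_mul_eps, map_zero]⟩
  invFun b := DualNumber.lift ⟨(Algebra.ofId k T, b.1), b.2, fun _ => Commute.all _ _⟩
  left_inv f := by
    apply DualNumber.algHom_ext
    rw [DualNumber.lift_apply_eps]
  right_inv b := by
    apply Subtype.ext
    change DualNumber.lift _ DualNumber.eps = b.1
    rw [DualNumber.lift_apply_eps]

/-- the parametrisation of the Hilbert functor -/
noncomputable def fatEquiv (T : Type u) [CommRing T] :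
    {b : T // b * b = 0} ≃ hilb wt hfun T :=
  Equiv.ofBijective (fun b => ⟨fatIdeal b.1 b.2, fatIdeal_mem_hilb b.1 b.2⟩) (by
    constructor
    · intro b b' hbb'
      exact Subtype.ext (fatIdeal_injective b.2 b'.2 (congrArg Subtype.val hbb'))
    · rintro ⟨I, hI⟩
      obtain ⟨b, hb, h⟩ := fat_complete hI
      exact ⟨⟨b, hb⟩, Subtype.ext h⟩)

lemma represents_fat (k : Type u) [Field k] :
    RepresentsHilb k wt hfun (Spec (CommRingCat.of (DualNumber k)))
      (Spec.map (CommRingCat.ofHom (algebraMap k (DualNumber k)))) := by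
  refine representsHilb_Spec (fun T _ _ => (dualEquiv k T).trans (fatEquiv T)) ?_
  intro T T' _ _ _ _ φ f
  exact (map_fatIdeal (φ : T →+* T') (dualEquiv k T f).1 (dualEquiv k T f).2
    (dualEquiv k T' (φ.comp f)).2).symm

lemma finite_dual (k : Type u) [Field k] : Module.Finite k (DualNumber k) :=
  inferInstanceAs (Module.Finite k (k × k))

lemma artinian_dual (k : Type u) [Field k] : IsArtinianRing (DualNumber k) :=
  have := finite_dual k
  IsArtinianRing.of_finite k _

lemma subsingleton_dual (k : Type u) [Field k] : Subsingleton (PrimeSpectrum (DualNumber k)) := by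
  have := artinian_dual k
  constructor
  intro P P'
  apply PrimeSpectrum.ext
  have h1 : P.asIdeal.IsMaximal := inferInstance
  have h2 : P'.asIdeal.IsMaximal := inferInstance
  rw [IsLocalRing.eq_maximalIdeal h1, IsLocalRing.eq_maximalIdeal h2]

lemma not_isField_dual (k : Type u) [Field k] : ¬ IsField (DualNumber k) := by
  intro hf
  have hε : (DualNumber.eps : DualNumber k) ≠ 0 := by
    intro h
    have h1 := congrArg TrivSqZeroExt.snd h
    rw [DualNumber.snd_eps, TrivSqZeroExt.snd_zero] at h1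
    exact one_ne_zero h1
  obtain ⟨x, hx⟩ := hf.mul_inv_cancel hε
  apply hε
  calc (DualNumber.eps : DualNumber k) = DualNumber.eps * (DualNumber.eps * x) := by
        rw [hx, mul_one]
    _ = 0 := by rw [← mul_assoc, DualNumber.eps_mul_eps, zero_mul]

/-- For every field `k` there are a grading of `k[x, y, z]` by `ℤ × ℤ` and a Hilbert function `h`
such that the multigraded Hilbert scheme has a connected component isomorphic to a fat point.
(In the example `deg x = (1,0)`, `deg y = (0,1)`, `deg z = (1,1)`, and the whole multigraded Hilbert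
scheme is the spectrum of the dual numbers over `k`.) -/
theorem result (k : Type u) [Field k] :
    ∃ (w : Fin 3 → ℤ × ℤ) (h : ℤ × ℤ → ℕ) (X : Scheme.{u}) (s : X ⟶ Spec (CommRingCat.of k)),
      RepresentsHilb k w h X s ∧ HasFatPointComponent k X s := by
  refine ⟨wt, hfun, _, _, represents_fat k, ⊤, isClosed_univ, ?_, DualNumber k, inferInstance,
    inferInstance, Scheme.topIso _, inferInstance, artinian_dual k, not_isField_dual k, rfl⟩
  have hsub := subsingleton_dual k
  refine ⟨?_, ?_⟩
  · exact ⟨IsLocalRing.closedPoint (DualNumber k), trivial⟩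
  · exact Set.Subsingleton.isPreconnected (fun x _ y _ => hsub.elim x y)

end Main

end Pool.Agent.Results.MP_94ed3e_ag.FatPoint
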